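import Mathlib

set_option autoImplicit false

/-! Perturbed dyadic subsum sets: covering counts. -/

namespace Pool.Agent.H53Ach
open Finset Filter Topology Classical

noncomputable def h (m : ℕ) : ℝ := (1 / 2) ^ m

theorem h_pos (m : ℕ) : 0 < h m := by unfold h; positivity

theorem h_add (m d : ℕ) : h m = 2 ^ d * h (m + d) := by
  unfold h; rw [pow_add, mul_left_comm, ← mul_pow]; norm_num

theorem h_mul (m d : ℕ) : h (m + d) = h m * h d := pow_add _ _ _

theorem h_anti {m n : ℕ} (hmn : m ≤ n) : h n ≤ h m :=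
  pow_le_pow_of_le_one (by norm_num) (by norm_num) hmn

noncomputable def s (x : ℕ → ℝ) : ℕ → ℕ → ℝ
  | 0, _ => 0
  | m + 1, k => s x m (k / 2) + (k % 2 : ℕ) * x m

theorem s_succ (x : ℕ → ℝ) (m k : ℕ) :
    s x (m + 1) k = s x m (k / 2) + (k % 2 : ℕ) * x m := rfl

noncomputable def g (x : ℕ → ℝ) (m k : ℕ) : ℝ := s x m k - k * h m

structure Hyp (x r er : ℕ → ℝ) (c : ℝ) (S : Set ℕ) : Prop where
  e0 : ∀ m, 0 < er m
  e2 : ∀ m, 2 * er (m + 1) ≤ er m
  es : ∀ ε : ℝ, 0 < ε → ∀ᶠ n in atTop, er n < ε * h n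
  c0 : 0 < c
  x0 : ∀ m, 0 ≤ x m
  r0 : ∀ m, 0 ≤ r m
  rs : ∀ m, r m = x m + r (m + 1)
  xd : ∀ m, |x m - h (m + 1)| ≤ er (m + 1)
  rd : ∀ m, |r m - h m| ≤ er m
  gap : ∀ m ∈ S, c * er (m + 1) ≤ x m - r (m + 1)
  many : ∀ R : ℕ, ∀ ε : ℝ, 0 < ε → ∃ᶠ n in atTop, ∃ l : ℕ → ℕ, StrictMono l ∧ n ≤ l 0 ∧
    (∀ i ≤ R, l i ∈ S) ∧ er n < ε * h (l R)

def Meets (x r : ℕ → ℝ) (m k : ℕ) (a b : ℝ) : Prop := s x m k ≤ b ∧ a ≤ s x m k + r m

noncomputable def C (x r : ℕ → ℝ) (m : ℕ) (a b : ℝ) : Finset ℕ :=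
  (range (2 ^ m)).filter (fun k => Meets x r m k a b)

variable {x r er : ℕ → ℝ} {c : ℝ} {S : Set ℕ}

theorem g_close (H : Hyp x r er c S) (l : ℕ) :
    ∀ d k, |g x (l + d) k - g x l (k / 2 ^ d)| ≤ er l - er (l + d) := by
  intro d
  induction d with
  | zero => intro k; simp
  | succ d ih =>
    intro k
    have h1 := ih (k / 2)
    rw [Nat.div_div_eq_div_mul, ← pow_succ'] at h1
    have h2 : g x (l + (d + 1)) k = g x (l + d) (k / 2) +
        (k % 2 : ℕ) * (x (l + d) - h (l + d + 1)) := by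
      have h3 : (k : ℝ) = 2 * (k / 2 : ℕ) + (k % 2 : ℕ) := by exact_mod_cast (by omega)
      simp only [g, ← add_assoc, s_succ]
      rw [h_add (l + d) 1]
      generalize ((k / 2 : ℕ) : ℝ) = u at *
      generalize ((k % 2 : ℕ) : ℝ) = v at *
      rw [h3]; ring
    have h4 := H.xd (l + d)
    have h5 : |((k % 2 : ℕ) : ℝ) * (x (l + d) - h (l + d + 1))| ≤ er (l + d + 1) := by
      rcases Nat.mod_two_eq_zero_or_one k with h6 | h6 <;> rw [h6]
      · simpa using (H.e0 _).le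
      · simpa using h4
    have h6 : 2 * er (l + d + 1) ≤ er (l + d) := by
      exact H.e2 (l + d)
    rw [h2, ← add_assoc]
    rw [abs_le] at *
    constructor <;> linarith [h1.1, h1.2, h5.1, h5.2]

theorem Meets.up (H : Hyp x r er c S) {a b : ℝ} (l : ℕ) :
    ∀ d k, Meets x r (l + d) k a b → Meets x r l (k / 2 ^ d) a b := by
  intro d
  induction d with
  | zero => intro k hk; simpa using hk
  | succ d ih =>
    intro k hk
    rw [pow_succ', ← Nat.div_div_eq_div_mul]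
    apply ih
    simp only [Meets, ← add_assoc, s_succ] at hk ⊢
    have h1 := H.x0 (l + d)
    rw [H.rs (l + d)]
    rcases Nat.mod_two_eq_zero_or_one k with h6 | h6 <;> rw [h6] at hk <;> push_cast at hk <;>
      constructor <;> linarith [hk.1, hk.2]

theorem C_up (H : Hyp x r er c S) {a b : ℝ} {l d k : ℕ} (hk : k ∈ C x r (l + d) a b) :
    k / 2 ^ d ∈ C x r l a b := by
  simp only [C, mem_filter, mem_range] at hk ⊢
  refine ⟨?_, hk.2.up H l d k⟩
  rw [Nat.div_lt_iff_lt_mul (by positivity), ← pow_add]; exact hk.1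

theorem C_mono {a b a' b' : ℝ} (m : ℕ) (h1 : a' ≤ a) (h2 : b ≤ b') :
    C x r m a b ⊆ C x r m a' b' := by
  intro k hk
  rw [C, mem_filter] at hk ⊢
  unfold Meets at hk ⊢
  exact ⟨hk.1, hk.2.1.trans h2, h1.trans hk.2.2⟩

theorem Meets.pos (H : Hyp x r er c S) {a b : ℝ} {l d k : ℕ} (hk : Meets x r (l + d) k a b) :
    g x l (k / 2 ^ d) + k * h (l + d) - er l ≤ b ∧
      a ≤ g x l (k / 2 ^ d) + (k + 1) * h (l + d) + er l := by
  have h1 := abs_le.mp (g_close H l d k)
  have h2 := abs_le.mp (H.rd (l + d))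
  have h3 := H.e0 (l + d)
  have h4 : s x (l + d) k = g x (l + d) k + k * h (l + d) := by simp [g]
  unfold Meets at hk
  constructor <;> linarith [hk.1, hk.2]

theorem card_le (S : Finset ℕ) (y L : ℝ) (hL : 0 ≤ L)
    (hS : ∀ k ∈ S, y ≤ k ∧ (k : ℝ) ≤ y + L) : (S.card : ℝ) ≤ L + 1 := by
  rcases S.eq_empty_or_nonempty with rfl | hne
  · simp; linarith
  · have h1 : S ⊆ Icc (S.min' hne) (S.max' hne) :=
      fun k hk => mem_Icc.mpr ⟨min'_le S k hk, le_max' S k hk⟩
    have h2 := card_le_card h1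
    have h3 := min'_le_max' S hne
    rw [Nat.card_Icc] at h2
    have h4 : S.card + S.min' hne ≤ S.max' hne + 1 := by omega
    have h5 : (S.card : ℝ) + S.min' hne ≤ S.max' hne + 1 := by exact_mod_cast h4
    linarith [(hS _ (min'_mem S hne)).1, (hS _ (max'_mem S hne)).2]

theorem upper (H : Hyp x r er c S) {a b : ℝ} (hab : a ≤ b) (l d : ℕ) :
    (C x r (l + d) a b).card * h (l + d) ≤
      (C x r l a b).card * (b - a + 2 * er l + 2 * h (l + d)) := by
  have hp := h_pos (l + d)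
  have hq := H.e0 l
  rw [card_eq_sum_card_fiberwise (f := fun k => k / 2 ^ d) (t := C x r l a b)
    (fun k hk => C_up H hk), Nat.cast_sum, sum_mul, ← nsmul_eq_mul, ← sum_const]
  refine sum_le_sum (fun w _ => ?_)
  have := card_le ((C x r (l + d) a b).filter (fun k => k / 2 ^ d = w))
    ((a - er l - g x l w) / h (l + d) - 1) ((b - a + 2 * er l) / h (l + d) + 1)
    (by have : 0 ≤ b - a := by linarith
        positivity) (fun k hk => by
      rw [mem_filter, C, mem_filter] at hk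
      have h1 := hk.1.2.pos H
      rw [hk.2] at h1
      constructor
      · rw [sub_le_iff_le_add, div_le_iff₀ hp]; linarith [h1.2]
      · rw [show (a - er l - g x l w) / h (l + d) - 1 + ((b - a + 2 * er l) / h (l + d) + 1) =
          (b + er l - g x l w) / h (l + d) by ring, le_div_iff₀ hp]
        linarith [h1.1])
  refine (mul_le_mul_of_nonneg_right this hp.le).trans (le_of_eq ?_)
  field_simp
  ring

open MeasureTheory in
theorem cover (S : Finset ℕ) (α β : ℕ → ℝ) (L : ℝ) (h0 : 0 ≤ L) (hL : ∀ k, β k - α k ≤ L)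
    (y z : ℝ) (ρ : ℕ)
    (hc : ∀ t, y ≤ t → t ≤ z → ρ ≤ (S.filter (fun k => α k ≤ t ∧ t ≤ β k)).card) :
    ρ * (z - y) ≤ S.card * L := by
  have h1 : ∫⁻ t, (Set.Icc y z).indicator (fun _ => (ρ : ENNReal)) t ≤
      ∫⁻ t, ∑ k ∈ S, (Set.Icc (α k) (β k)).indicator (1 : ℝ → ENNReal) t := by
    refine lintegral_mono (fun t => ?_)
    by_cases ht : t ∈ Set.Icc y z
    · rw [Set.indicator_of_mem ht]
      simp only [Set.indicator_apply, Pi.one_apply, sum_boole, Set.mem_Icc]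
      exact_mod_cast hc t ht.1 ht.2
    · simp [Set.indicator_of_notMem ht]
  rw [lintegral_indicator_const measurableSet_Icc, lintegral_finsetSum _
    (fun k _ => measurable_one.indicator measurableSet_Icc)] at h1
  simp only [lintegral_indicator_one measurableSet_Icc, Real.volume_Icc] at h1
  have h2 := h1.trans (sum_le_card_nsmul S _ (ENNReal.ofReal L)
    (fun k _ => ENNReal.ofReal_le_ofReal (hL k)))
  rw [nsmul_eq_mul, ← ENNReal.ofReal_natCast, ← ENNReal.ofReal_natCast,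
    ← ENNReal.ofReal_mul (Nat.cast_nonneg _), ← ENNReal.ofReal_mul (Nat.cast_nonneg _)] at h2
  exact (ENNReal.ofReal_le_ofReal_iff (by positivity)).mp h2

def Q (x r : ℕ → ℝ) (ρ : ℕ) (A B : ℝ) : Prop := ∀ p, ∃ᶠ n in atTop, ∀ t, A ≤ t →
  t + h (n + p) ≤ B → ρ ≤ (C x r n t (t + h (n + p))).card

def P (x r er : ℕ → ℝ) (ρ : ℕ) (A B : ℝ) : Prop := ∀ a b, A ≤ a → a ≤ b → b ≤ B → ∀ l,
  ρ * (b - a) ≤ (C x r l a b).card * (b - a + 2 * er l)

theorem small (H : Hyp x r er c S) {ε : ℝ} (hε : 0 < ε) : ∀ᶠ n in atTop, er n < ε * h n :=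
  H.es ε hε

theorem h_small {ε : ℝ} (hε : 0 < ε) : ∀ᶠ n in atTop, h n < ε :=
  (tendsto_pow_atTop_nhds_zero_of_lt_one (r := (1 / 2 : ℝ)) (by norm_num)
    (by norm_num)).eventually (gt_mem_nhds hε)

theorem QP (H : Hyp x r er c S) {ρ : ℕ} {A B : ℝ} (hQ : Q x r ρ A B) : P x r er ρ A B := by
  intro a b h1 h2 h3 l
  have key : ∀ ε : ℝ, 0 < ε → ρ * (b - a - ε) ≤
      (C x r l a b).card * (b - a + 2 * er l + 2 * ε) * (1 + 2 * ε) := by
    intro ε hε
    obtain ⟨p, hp⟩ := (h_small hε).exists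
    obtain ⟨m, h4, ⟨h5, h6⟩, h7⟩ :=
      ((hQ p).and_eventually (((small H hε).and (h_small hε)).and (eventually_ge_atTop l))).exists
    obtain ⟨d, rfl⟩ := Nat.exists_eq_add_of_le h7
    have hm := h_pos (l + d)
    have h8 := cover (C x r (l + d) a b) (fun k => s x (l + d) k - h (l + d + p))
      (fun k => s x (l + d) k + r (l + d)) (h (l + d) * (1 + 2 * ε)) (by positivity) (fun k => by
        have := (abs_le.mp (H.rd (l + d))).2
        have := mul_lt_mul_of_pos_left hp hm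
        simp only [h_mul (l + d) p]
        nlinarith) a (b - h (l + d + p)) ρ (fun t ht1 ht2 => by
        refine (h4 t (h1.trans ht1) (by linarith)).trans (card_le_card (fun k hk => ?_))
        refine mem_filter.mpr ⟨C_mono _ ht1 (by linarith) hk, ?_⟩
        have := (mem_filter.mp hk).2
        exact ⟨by linarith [this.1], this.2⟩)
    have h9 := upper H h2 l d
    have h10 : h (l + d + p) ≤ ε := (h_anti (by omega)).trans hp.le
    have h11 : (0 : ℝ) ≤ (C x r l a b).card := Nat.cast_nonneg _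
    calc (ρ : ℝ) * (b - a - ε) ≤ ρ * (b - h (l + d + p) - a) :=
          mul_le_mul_of_nonneg_left (by linarith) (Nat.cast_nonneg _)
      _ ≤ (C x r (l + d) a b).card * h (l + d) * (1 + 2 * ε) := by rw [mul_assoc]; exact h8
      _ ≤ _ := mul_le_mul_of_nonneg_right
          (h9.trans (mul_le_mul_of_nonneg_left (by linarith) h11)) (by positivity)
  have c1 : Tendsto (fun ε : ℝ => ρ * (b - a - ε)) (𝓝[>] 0) (𝓝 (ρ * (b - a - 0))) :=
    (Continuous.tendsto (by fun_prop) 0).mono_left nhdsWithin_le_nhds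
  have c2 : Tendsto (fun ε : ℝ => (C x r l a b).card * (b - a + 2 * er l + 2 * ε) * (1 + 2 * ε))
      (𝓝[>] 0) (𝓝 ((C x r l a b).card * (b - a + 2 * er l + 2 * 0) * (1 + 2 * 0))) :=
    (Continuous.tendsto (by fun_prop) 0).mono_left nhdsWithin_le_nhds
  simpa using le_of_tendsto_of_tendsto c1 c2 (eventually_nhdsWithin_of_forall key)

end Pool.Agent.H53Ach
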