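import Mathlib
import Pool.Agent.H53Ach.A
import Pool.Graph.R_pool_sql_team_22a80281.Lib.helper13_.Brouwer

set_option autoImplicit false

/-! Perturbed dyadic subsum sets are Cantor sets. -/

namespace Pool.Agent.H53Ach
open Finset Filter Topology Classical

variable {x r er : ℕ → ℝ} {c : ℝ} {S : Set ℕ}

theorem int_eq {u e : ℝ} {Z Z' : ℤ} (hu : e < u) (h1 : |(Z : ℝ) * u - Z' * u| ≤ e) : Z = Z' := by
  have hu0 : 0 < u := (abs_nonneg _).trans_lt (h1.trans_lt hu)
  rw [← sub_mul, abs_mul, abs_of_pos hu0] at h1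
  have h2 : |(Z : ℝ) - Z'| < 1 := by
    by_contra h3
    nlinarith [not_lt.mp h3]
  have h3 : |Z - Z'| < 1 := by exact_mod_cast h2
  have := abs_lt.mp h3
  omega

theorem good_j (W : Finset ℕ) (β : ℕ → ℝ) (e : ℝ) (ρ K : ℕ) (lv : ℕ → ℕ) (hW : W.card ≤ ρ)
    (hlv : ∀ σ τ, σ < τ → lv σ + (K + 1) ≤ lv τ)
    (he : 2 * e < h (lv ρ)) : ∃ σ ≤ ρ, ∀ w ∈ W, ∀ Z : ℤ,
      |β w - Z * h (lv σ)| ≤ e → (2 ^ (K + 1) : ℤ) ∣ Z := by
  by_contra hcon
  push Not at hcon
  have hmono : ∀ σ τ, σ ≤ τ → lv σ ≤ lv τ := by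
    intro σ τ h1
    rcases h1.eq_or_lt with h2 | h2
    · rw [h2]
    · have := hlv σ τ h2; omega
  choose! f hf Z hZ hd using hcon
  have key : ∀ σ τ, σ < τ → τ ≤ ρ → f σ ≠ f τ := by
    intro σ τ h1 h2 h3
    have hl := hlv σ τ h1
    obtain ⟨d, hd1⟩ := Nat.exists_eq_add_of_le hl
    have h4 := hZ σ (by omega)
    have h5 := hZ _ h2
    have hd2 : lv τ = lv σ + (K + 1 + d) := by omega
    rw [h_add (lv σ) (K + 1 + d), h3, ← hd2, ← mul_assoc] at h4
    apply hd _ h2
    have h6 : Z σ * 2 ^ (K + 1 + d) = Z τ := by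
      refine int_eq (he.trans_le (h_anti (hmono _ _ h2))) ?_
      push_cast
      rw [abs_le] at *
      constructor <;> linarith [h4.1, h4.2, h5.1, h5.2]
    rw [← h6]
    exact Dvd.dvd.mul_left (pow_dvd_pow _ (by omega)) _
  obtain ⟨σ, hσ, τ, hτ, hne, h1⟩ := exists_ne_map_eq_of_card_lt_of_maps_to (s := range (ρ + 1))
    (t := W) (f := f) (by simpa using Nat.lt_succ_of_le hW)
    (fun σ hσ => hf σ (Nat.lt_succ_iff.mp (mem_range.mp hσ)))
  rw [mem_range] at hσ hτ
  rcases lt_or_gt_of_ne hne with h2 | h2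
  · exact key σ τ h2 (by omega) h1
  · exact key τ σ h2 (by omega) h1.symm

theorem s_even (m i : ℕ) : s x (m + 1) (2 * i) = s x m i := by
  rw [s_succ, show 2 * i / 2 = i by omega, show 2 * i % 2 = 0 by omega]; simp

theorem s_odd (m i : ℕ) : s x (m + 1) (2 * i + 1) = s x m i + x m := by
  rw [s_succ, show (2 * i + 1) / 2 = i by omega, show (2 * i + 1) % 2 = 1 by omega]; simp

/-- A gap of one layer in which no other layer overlaps itself. -/
theorem gap_count (H : Hyp x r er c S) {n j K w1 i : ℕ} {a b : ℝ} (W : Finset ℕ)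
    (hi : i / 2 ^ j = w1) (hW : C x r n a b ⊆ W) (hw1 : w1 ∈ W)
    (he : 4 * er n < h (n + j + 1 + K))
    (ha : s x (n + j) i + r (n + j + 1) < a) (hb : b < s x (n + j) i + x (n + j))
    (hab : b - a < x (n + j) - r (n + j + 1))
    (hg : ∀ w ∈ W, ∀ Z : ℤ, |g x n w - g x n w1 - Z * h (n + j + 1 + K)| ≤ 2 * er n →
      (2 ^ (K + 1) : ℤ) ∣ Z) : (C x r (n + j + 1 + K) a b).card + 1 ≤ W.card := by
  have hq := H.e0 (n + (j + 1))
  have p1 := abs_le.mp (g_close H n (j + 1) (2 * i + 1))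
  have p2 := abs_le.mp (g_close H n (j + 1) (2 * i))
  have p3 := abs_le.mp (H.rd (n + (j + 1)))
  rw [pow_succ' 2 j, ← Nat.div_div_eq_div_mul] at p1 p2
  rw [show (2 * i + 1) / 2 = i by omega, hi, g, ← add_assoc, s_odd] at p1
  rw [show 2 * i / 2 = i by omega, hi, g, ← add_assoc, s_even] at p2
  rw [← add_assoc] at p3 hq
  push_cast at p1 p2
  have hm := h_add (n + j + 1) K
  have hl := h_pos (n + j + 1 + K)
  have hle : h (n + j + 1 + K) ≤ h (n + j + 1) := h_anti (by omega)
  have b1 : b ≤ g x n w1 + (2 * i + 1) * h (n + j + 1) + er n := by linarith [p1.2]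
  have a1 : g x n w1 + (2 * i + 1) * h (n + j + 1) - er n ≤ a := by linarith [p2.1, p3.1]
  have e1 : n + j + 1 + K = n + (j + 1 + K) := by ring
  have dv : ∀ k, k / 2 ^ (j + 1 + K) = k / 2 ^ K / 2 ^ (j + 1) := by
    intro k; rw [Nat.div_div_eq_div_mul, ← pow_add, add_comm K]
  have inj : ∀ k ∈ C x r (n + j + 1 + K) a b, ∀ k' ∈ C x r (n + j + 1 + K) a b, k < k' →
      k / 2 ^ (j + 1 + K) ≠ k' / 2 ^ (j + 1 + K) := by
    intro k hk k' hk' hlt heq
    have hw := hW (C_up H (e1 ▸ hk))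
    have m1 := (mem_filter.mp hk).2
    have m2 := (mem_filter.mp hk').2
    have h1 := (Meets.pos H (e1 ▸ m1)).2
    have h2 := (Meets.pos H (e1 ▸ m2)).1
    rw [← heq] at h2
    rw [← e1] at h1 h2
    have h3 : (k : ℝ) + 1 ≤ k' := by exact_mod_cast hlt
    have h4 := mul_le_mul_of_nonneg_right h3 hl.le
    have h5 : ((k + 1 : ℕ) : ℤ) = (k' : ℤ) := int_eq he (by
      push_cast; rw [abs_le]; constructor <;> linarith)
    have h6 : k' = k + 1 := by omega
    obtain ⟨z, hz⟩ := hg _ hw ((2 * i + 1) * 2 ^ K - (k + 1)) (by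
      push_cast
      rw [sub_mul, mul_assoc, ← hm, abs_le]; constructor <;> linarith)
    have h7 : ((k : ℤ) + 1) = 2 ^ K * (2 * (i - z) + 1) := by rw [pow_succ] at hz; linarith
    have h8 : 0 ≤ (i : ℤ) - z := by
      have : (0 : ℤ) < 2 * (i - z) + 1 :=
        (mul_pos_iff_of_pos_left (show (0 : ℤ) < 2 ^ K by positivity)).mp (by rw [← h7]; positivity)
      omega
    obtain ⟨v, hv⟩ := Int.eq_ofNat_of_zero_le h8
    rw [hv] at h7
    have h9 : k + 1 = 2 ^ K * (2 * v + 1) := by exact_mod_cast h7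
    have hK : 0 < 2 ^ K := by positivity
    have u1 := m1.up H (n + j + 1) K k
    have u2 := m2.up H (n + j + 1) K k'
    rw [h6, h9, Nat.mul_div_cancel_left _ hK, Meets, s_odd] at u2
    rw [Nat.div_eq_of_lt_le (k := 2 * v) (by nlinarith) (by nlinarith), Meets, s_even] at u1
    linarith [u1.2, u2.1]
  rw [← card_erase_add_one hw1, add_le_add_iff_right]
  refine card_le_card_of_injOn (fun k => k / 2 ^ (j + 1 + K)) (fun k hk => ?_) ?_
  · refine mem_coe.mpr (mem_erase.mpr ⟨fun heq => ?_, hW (C_up H (e1 ▸ hk))⟩)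
    have u1 := (mem_filter.mp hk).2.up H (n + j + 1) K k
    have h1 := Meets.pos H (l := n) (d := j + 1) u1
    rw [← dv, show k / 2 ^ (j + 1 + K) = w1 from heq, ← add_assoc] at h1
    generalize k / 2 ^ K = k' at *
    have hp := h_pos (n + j + 1)
    have h2 : (k' : ℝ) < 2 * i + 2 := by
      by_contra h3
      nlinarith [mul_le_mul_of_nonneg_right (not_lt.mp h3) hp.le, h1.1]
    have h3 : (2 * i : ℝ) < k' + 1 := by
      by_contra h3
      nlinarith [mul_le_mul_of_nonneg_right (not_lt.mp h3) hp.le, h1.2]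
    have h4 : k' < 2 * i + 2 := by exact_mod_cast h2
    have h5 : 2 * i < k' + 1 := by exact_mod_cast h3
    obtain rfl | rfl : k' = 2 * i ∨ k' = 2 * i + 1 := by omega
    · rw [Meets, s_even] at u1; linarith [u1.2]
    · rw [Meets, s_odd] at u1; linarith [u1.1]
  · intro k hk k' hk' heq
    rcases lt_trichotomy k k' with h1 | h1 | h1
    · exact absurd heq (inj k hk k' hk' h1)
    · exact h1
    · exact absurd heq.symm (inj k' hk' k hk h1)

theorem er_add (H : Hyp x r er c S) (l K : ℕ) : er (l + K) ≤ (1 / 2) ^ K * er l := by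
  induction K with
  | zero => simp
  | succ K ih =>
    have := H.e2 (l + K)
    rw [← add_assoc, pow_succ]
    linarith

theorem PQ (H : Hyp x r er c S) {ρ : ℕ} {A B : ℝ} (hρ : 1 ≤ ρ) (hP : P x r er ρ A B) :
    Q x r (ρ + 1) A B := by
  intro p
  have hρ' : (1 : ℝ) ≤ ρ := by exact_mod_cast hρ
  obtain ⟨K, hK⟩ := exists_pow_lt_of_lt_one (x := c / (4 * ρ)) (y := 1 / 2)
    (div_pos H.c0 (by positivity)) (by norm_num)
  rw [lt_div_iff₀ (by positivity)] at hK
  refine (H.many (p + 4 + (K + 1) * (ρ + 1)) (h (1 + K) / (4 * ρ))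
    (div_pos (h_pos _) (by positivity))).mono ?_
  rintro n ⟨lev, lm, l0, lS, hn⟩ t ht1 ht2
  rw [div_mul_eq_mul_div, lt_div_iff₀ (by positivity), mul_comm (h _), ← h_mul] at hn
  have lid : ∀ a b, a ≤ b → lev a + (b - a) ≤ lev b := by
    intro a b hab
    obtain ⟨d, rfl⟩ := Nat.exists_eq_add_of_le hab
    clear hab
    induction d with
    | zero => simp
    | succ d ih =>
      have := lm (show a + d < a + (d + 1) by omega)
      omega
  have lR : lev (p + 4 + (K + 1) * (ρ + 1)) ≥ n + (p + 4) := by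
    have := lid 0 (p + 4 + (K + 1) * (ρ + 1)) (by omega)
    omega
  by_contra hcon
  have hW : (C x r n t (t + h (n + p))).card ≤ ρ := by omega
  set W := C x r n t (t + h (n + p)) with hWdef
  have kill : ∀ a b l, t ≤ a → a ≤ b → b ≤ t + h (n + p) → (C x r l a b).card + 1 ≤ ρ →
      b - a < 2 * ρ * er l := by
    intro a b l h1 h2 h3 h4
    have h5 := hP a b (ht1.trans h1) h2 (h3.trans ht2) l
    have h6 : ((C x r l a b).card : ℝ) ≤ ρ - 1 := by
      rw [le_sub_iff_add_le]; exact_mod_cast h4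
    have h7 := H.e0 l
    have h8 := mul_le_mul_of_nonneg_right h6 (show 0 ≤ b - a + 2 * er l by linarith)
    nlinarith
  have hq := H.e0 n
  have hκ : h (n + p) = 4 * h (n + p + 2) := by rw [h_add _ 2]; norm_num
  have hκ0 := h_pos (n + p + 2)
  have hκ1 : er n * (4 * ρ) < h (n + p + 2) := hn.trans_le (h_anti (by omega))
  set κ := h (n + p + 2)
  have out : ∀ a w, t ≤ a → a ≤ t + 3 * κ → w ∈ W → Meets x r n w a (a + κ) := by
    intro a w h1 h2 hw
    by_contra h3
    have h4 : C x r n a (a + κ) ⊆ W.erase w := fun k hk => mem_erase.mpr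
      ⟨fun h5 => h3 (h5 ▸ (mem_filter.mp hk).2), C_mono n h1 (by linarith) hk⟩
    have h5 := card_le_card h4
    have h6 := card_erase_add_one hw
    have := kill a (a + κ) n h1 (by linarith) (by linarith) (by omega)
    nlinarith
  obtain ⟨w1, hw1⟩ : W.Nonempty := by
    by_contra h1
    have h2 : (C x r n t (t + κ)).card ≤ W.card := card_le_card (C_mono n le_rfl (by linarith))
    rw [not_nonempty_iff_eq_empty] at h1
    rw [h1, card_empty] at h2
    have := kill t (t + κ) n le_rfl (by linarith) (by linarith) (by omega)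
    nlinarith
  have h4q : 4 * er n < h (lev (p + 4 + (K + 1) * (ρ + 1)) + (1 + K)) :=
    lt_of_le_of_lt (by nlinarith) hn
  have idx : ∀ σ ≤ ρ, p + 4 + (K + 1) * σ ≤ p + 4 + (K + 1) * (ρ + 1) := fun σ hσ => by
    have := Nat.mul_le_mul_left (K + 1) (show σ ≤ ρ + 1 by omega)
    omega
  obtain ⟨σ, hσ, hg⟩ := good_j W (fun w => g x n w - g x n w1) (2 * er n) ρ K
    (fun σ => lev (p + 4 + (K + 1) * σ) + 1 + K)
    hW (fun σ τ hστ => by
      have h1 := Nat.mul_le_mul_left (K + 1) (show σ + 1 ≤ τ from hστ)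
      have h2 := lid (p + 4 + (K + 1) * σ) (p + 4 + (K + 1) * τ) (by
        have := Nat.mul_le_mul_left (K + 1) (show σ ≤ τ by omega)
        omega)
      have h3 : (K + 1) * (σ + 1) = (K + 1) * σ + (K + 1) := by ring
      show lev (p + 4 + (K + 1) * σ) + 1 + K + (K + 1) ≤ lev (p + 4 + (K + 1) * τ) + 1 + K
      omega) (by
      have h1 := h_anti (m := lev (p + 4 + (K + 1) * ρ) + 1 + K)
        (n := lev (p + 4 + (K + 1) * (ρ + 1)) + (1 + K)) (by
          have := lm.monotone (idx ρ le_rfl)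
          omega)
      show 2 * (2 * er n) < h (lev (p + 4 + (K + 1) * ρ) + 1 + K)
      linarith)
  obtain ⟨j, hj⟩ : ∃ j, lev (p + 4 + (K + 1) * σ) = n + j := by
    have := lid 0 (p + 4 + (K + 1) * σ) (by omega)
    exact ⟨lev (p + 4 + (K + 1) * σ) - n, by omega⟩
  have hj4 : p + 4 ≤ j := by
    have := lid 0 (p + 4 + (K + 1) * σ) (by omega)
    omega
  simp only [hj] at hg
  have he : 4 * er n < h (n + j + 1 + K) := h4q.trans_le (h_anti (by
    have := lm.monotone (idx σ hσ)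
    omega))
  have hγ := H.gap (n + j) (hj ▸ lS _ (idx σ hσ))
  have hγ0 := mul_pos H.c0 (H.e0 (n + j + 1))
  have o1 := (out t w1 le_rfl (by linarith) hw1).1
  have o2 := (out (t + 3 * κ) w1 (by linarith) le_rfl hw1).2
  have o3 := (abs_le.mp (H.rd n)).2
  have o4 : s x n w1 = g x n w1 + w1 * h n := by simp [g]
  have hp := h_pos (n + j)
  have hm : h (n + j) ≤ κ := h_anti (by omega)
  have hn' := h_add n j
  set y := (t + 2 * κ - g x n w1) / h (n + j) with hy
  have y1 : ((w1 * 2 ^ j : ℕ) : ℝ) ≤ y := by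
    rw [hy, le_div_iff₀ hp]; push_cast; rw [mul_assoc, ← hn']; linarith
  have y2 : y < (((w1 + 1) * 2 ^ j : ℕ) : ℝ) := by
    rw [hy, div_lt_iff₀ hp]; push_cast; rw [mul_assoc, ← hn']; nlinarith
  have y0 : 0 ≤ y := (Nat.cast_nonneg _).trans y1
  have hi : ⌊y⌋₊ / 2 ^ j = w1 :=
    Nat.div_eq_of_lt_le (Nat.le_floor y1) ((Nat.floor_lt y0).mpr y2)
  have y3 := (le_div_iff₀ hp).mp (Nat.floor_le y0)
  have y4 := (div_lt_iff₀ hp).mp (Nat.lt_floor_add_one y)
  generalize ⌊y⌋₊ = i at *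
  have p1 := abs_le.mp (g_close H n j i)
  have p2 := abs_le.mp (H.rd (n + j))
  have p3 := H.rs (n + j)
  have p4 := H.r0 (n + j + 1)
  have p5 := H.e0 (n + j)
  rw [hi, g] at p1
  set γ := x (n + j) - r (n + j + 1) with hγd
  have a1 : t ≤ s x (n + j) i + r (n + j + 1) + γ / 4 := by nlinarith [p1.1]
  have b1 : s x (n + j) i + r (n + j + 1) + 3 * γ / 4 ≤ t + h (n + p) := by nlinarith [p1.2, p2.2]
  have h1 := gap_count H (a := s x (n + j) i + r (n + j + 1) + γ / 4)
    (b := s x (n + j) i + r (n + j + 1) + 3 * γ / 4) W hi (C_mono n a1 b1) hw1 he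
    (by linarith) (by linarith) (by linarith) hg
  have h2 := kill _ _ _ a1 (by linarith) b1 (h1.trans hW)
  have h3 := er_add H (n + j + 1) K
  have h4 := mul_lt_mul_of_pos_left hK (H.e0 (n + j + 1))
  have h5 : 2 * (ρ : ℝ) * er (n + j + 1 + K) ≤ 2 * ρ * ((1 / 2) ^ K * er (n + j + 1)) :=
    mul_le_mul_of_nonneg_left h3 (by positivity)
  nlinarith

theorem no_interval (H : Hyp x r er c S) {A B : ℝ} (hAB : A < B) :
    ∃ t, A ≤ t ∧ t ≤ B ∧ ∃ m, ∀ k < 2 ^ m, ¬ Meets x r m k t t := by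
  by_contra hcon
  push Not at hcon
  have hQ : ∀ ρ, Q x r (ρ + 1) A B := by
    intro ρ
    induction ρ with
    | zero =>
      refine fun p => Frequently.of_forall (fun n t h1 h2 => ?_)
      have := h_pos (n + p)
      obtain ⟨k, hk, h3⟩ := hcon t h1 (by linarith) n
      exact card_pos.mpr ⟨k, C_mono n le_rfl (by linarith) (mem_filter.mpr ⟨mem_range.mpr hk, h3⟩)⟩
    | succ ρ ih => exact PQ H (by omega) (QP H ih)
  obtain ⟨ρ, hρ⟩ := exists_nat_gt ((2 * er 0) / (B - A))
  have h1 := QP H (hQ ρ) A B le_rfl hAB.le le_rfl 0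
  have h2 : ((C x r 0 A B).card : ℝ) ≤ 1 := by
    exact_mod_cast (card_filter_le _ _).trans (by simp)
  rw [div_lt_iff₀ (by linarith)] at hρ
  push_cast at h1
  have h3 := mul_le_mul_of_nonneg_right h2 (show 0 ≤ B - A + 2 * er 0 by linarith [H.e0 0])
  nlinarith

/-- The set of subsums of `x`. -/
def E (x : ℕ → ℝ) : Set ℝ := {t | ∃ A : Set ℕ, t = ∑' n, A.indicator x n}

theorem cantor (hx : ∀ n, 0 < x n) (hs : Summable x) (H : Hyp x (fun m => ∑' i, x (i + m)) er c S) :
    Nonempty (E x ≃ₜ cantorSet) := by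
  have sm : ∀ A : Set ℕ, Summable (A.indicator x) := fun A => hs.indicator A
  apply H13Br.brouwer
  refine ⟨?_, ⟨_, ∅, rfl⟩, ?_, fun a b hab => ?_⟩
  · have : E x = Set.range (fun ε : ℕ → Bool => ∑' n, if ε n then x n else 0) := by
      ext t
      constructor
      · rintro ⟨A, rfl⟩
        exact ⟨fun n => decide (n ∈ A), by simp [Set.indicator_apply]⟩
      · rintro ⟨ε, rfl⟩
        exact ⟨{n | ε n}, by simp [Set.indicator_apply]⟩
    rw [this]
    refine isCompact_range (continuous_tsum (u := x) (fun n => ?_) hs (fun n ε => ?_))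
    · exact (continuous_of_discreteTopology (f := fun b : Bool => if b then x n else 0)).comp
        (continuous_apply n)
    · split_ifs
      · rw [Real.norm_of_nonneg (hx n).le]
      · simpa using (hx n).le
  · rintro t ⟨A, rfl⟩
    refine accPt_iff_nhds.mpr (fun U hU => ?_)
    obtain ⟨ε, hε, hU'⟩ := Metric.mem_nhds_iff.mp hU
    obtain ⟨n, hn⟩ := (hs.tendsto_atTop_zero.eventually (gt_mem_nhds hε)).exists
    have key : ∀ D : Set ℕ, n ∉ D →
        ∑' i, (insert n D).indicator x i = x n + ∑' i, D.indicator x i := by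
      intro D hD
      rw [Set.insert_eq, Set.indicator_union_of_disjoint (by simpa using hD),
        Summable.tsum_add (sm _) (sm _), tsum_eq_single n (fun i hi => by simp [hi])]
      simp
    have := hx n
    by_cases h1 : n ∈ A
    · have h2 := key (A \ {n}) (by simp)
      rw [Set.insert_sdiff_self_of_mem h1] at h2
      refine ⟨∑' i, (A \ {n}).indicator x i, ⟨hU' ?_, _, rfl⟩, by linarith⟩
      rw [Metric.mem_ball, Real.dist_eq, abs_lt]; constructor <;> linarith
    · have h2 := key A h1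
      refine ⟨∑' i, (insert n A).indicator x i, ⟨hU' ?_, _, rfl⟩, by linarith⟩
      rw [Metric.mem_ball, Real.dist_eq, abs_lt]; constructor <;> linarith
  · obtain ⟨t, h1, h2, m, h3⟩ := no_interval H (A := a + (b - a) / 3) (B := b - (b - a) / 3)
      (by linarith)
    refine ⟨t, by linarith, by linarith, ?_⟩
    rintro ⟨A, rfl⟩
    have : ∀ m, ∃ k < 2 ^ m, s x m k = ∑ i ∈ range m, A.indicator x i := by
      intro m
      induction m with
      | zero => exact ⟨0, by simp, rfl⟩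
      | succ m ih =>
        obtain ⟨k, hk, h4⟩ := ih
        by_cases h5 : m ∈ A
        · exact ⟨2 * k + 1, by omega, by rw [s_odd, sum_range_succ, h4, Set.indicator_of_mem h5]⟩
        · exact ⟨2 * k, by omega, by
            rw [s_even, sum_range_succ, h4, Set.indicator_of_notMem h5, add_zero]⟩
    obtain ⟨k, hk, h4⟩ := this m
    apply h3 k hk
    have h5 := (sm A).sum_add_tsum_nat_add m
    have h6 : 0 ≤ ∑' i, A.indicator x (i + m) :=
      tsum_nonneg (fun i => Set.indicator_nonneg (fun _ _ => (hx _).le) _)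
    have h7 : ∑' i, A.indicator x (i + m) ≤ ∑' i, x (i + m) :=
      ((summable_nat_add_iff m).mpr (sm A)).tsum_le_tsum
        (fun i => Set.indicator_le_self' (fun _ _ => (hx _).le) _) ((summable_nat_add_iff m).mpr hs)
    exact ⟨by linarith, by linarith⟩

end Pool.Agent.H53Ach
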