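import Mathlib
import Pool.Agent.H53Ach.B
import Pool.Graph.R_seed8.Y805.AS.Fin

set_option autoImplicit false

/-! The sequences `1 / (2 ^ n + c n)` with a bounded `c ≥ 0`. -/

namespace Pool.Agent.H53Ach.Seq

open Finset Filter Topology MeasureTheory

/-- the term `1 / (2 ^ n + c n)` -/
noncomputable def seq (c : ℕ → ℝ) (n : ℕ) : ℝ := 1 / (2 ^ n + c n)

/-- the achievement set: all sums over sets of positive integers -/
def achSet (x : ℕ → ℝ) : Set ℝ := {s : ℝ | ∃ A : Set ℕ, A ⊆ {n | 1 ≤ n} ∧ s = ∑' n, A.indicator x n}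

variable {c : ℕ → ℝ} {C : ℝ}

theorem seq_pos (hc : ∀ n, 0 ≤ c n) (n : ℕ) : 0 < seq c n := by
  have := hc n
  unfold seq; positivity

theorem seq_le (hc : ∀ n, 0 ≤ c n) (n : ℕ) : seq c n ≤ 1 / 2 ^ n :=
  one_div_le_one_div_of_le (by positivity) (by linarith [hc n])

theorem four_pow (n : ℕ) : (1 / 4 : ℝ) ^ n = 1 / (2 ^ n * 2 ^ n) := by
  rw [← mul_pow, one_div_pow]; norm_num

/-- first order lower bound -/
theorem seq_ge (hc : ∀ n, 0 ≤ c n) (n : ℕ) : 1 / 2 ^ n - c n * (1 / 4) ^ n ≤ seq c n := by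
  have h0 := hc n
  have hu : (0 : ℝ) < 2 ^ n := by positivity
  rw [four_pow]
  unfold seq
  generalize (2 : ℝ) ^ n = u at *
  have h1 : 1 / u - c n * (1 / (u * u)) = (u - c n) / (u * u) := by field_simp
  rw [h1, div_le_div_iff₀ (by positivity) (by positivity)]
  nlinarith [mul_nonneg h0 h0]

/-- second order upper bound -/
theorem seq_le2 (hc : ∀ n, 0 ≤ c n) (n : ℕ) :
    seq c n ≤ 1 / 2 ^ n - c n * (1 / 4) ^ n + (c n) ^ 2 * (1 / 8) ^ n := by
  have h0 := hc n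
  have hu : (0 : ℝ) < 2 ^ n := by positivity
  have h8 : (1 / 8 : ℝ) ^ n = 1 / (2 ^ n * 2 ^ n * 2 ^ n) := by
    rw [← mul_pow, ← mul_pow, one_div_pow]; norm_num
  rw [four_pow, h8]
  unfold seq
  generalize (2 : ℝ) ^ n = u at *
  have h1 : 1 / u - c n * (1 / (u * u)) + (c n) ^ 2 * (1 / (u * u * u)) =
      (u ^ 2 - c n * u + (c n) ^ 2) / (u * u * u) := by field_simp
  rw [h1, div_le_div_iff₀ (by positivity) (by positivity)]
  have : (u ^ 2 - c n * u + (c n) ^ 2) * (u + c n) = u ^ 3 + (c n) ^ 3 := by ring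
  rw [this]
  nlinarith [pow_nonneg h0 3]

theorem seq_dist (hc : ∀ n, 0 ≤ c n) (hC : ∀ n, c n ≤ C) (n : ℕ) :
    |seq c n - 1 / 2 ^ n| ≤ C * (1 / 4) ^ n := by
  have h1 := seq_le hc n
  have h2 := seq_ge hc n
  have h3 : c n * (1 / 4) ^ n ≤ C * (1 / 4) ^ n := mul_le_mul_of_nonneg_right (hC n) (by positivity)
  have h4 : 0 ≤ c n * (1 / 4) ^ n := mul_nonneg (hc n) (by positivity)
  rw [abs_le]
  constructor <;> linarith

theorem half_pow (n : ℕ) : h n = 1 / 2 ^ n := by rw [h, one_div_pow]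

theorem summable_seq (hc : ∀ n, 0 ≤ c n) : Summable (seq c) := by
  refine Summable.of_nonneg_of_le (fun n => (seq_pos hc n).le) (fun n => ?_) summable_geometric_two
  rw [one_div_pow]
  exact seq_le hc n

theorem ach_eq (hc : ∀ n, 0 ≤ c n) : achSet (seq c) = E (fun m => seq c (m + 1)) := by
  have hs := summable_seq hc
  have sm : ∀ A : Set ℕ, Summable (A.indicator (seq c)) := fun A => hs.indicator A
  ext t
  constructor
  · rintro ⟨A, hA, rfl⟩
    refine ⟨{m | m + 1 ∈ A}, ?_⟩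
    rw [(sm A).tsum_eq_zero_add, Set.indicator_of_notMem (fun h0 => by simpa using hA h0), zero_add]
    rfl
  · rintro ⟨A, rfl⟩
    refine ⟨{n | 1 ≤ n ∧ n - 1 ∈ A}, fun n hn => hn.1, ?_⟩
    rw [(sm _).tsum_eq_zero_add, Set.indicator_of_notMem (by simp), zero_add]
    refine tsum_congr (fun m => ?_)
    by_cases hm : m ∈ A
    · rw [Set.indicator_of_mem hm, Set.indicator_of_mem (by simpa using hm)]
    · rw [Set.indicator_of_notMem hm, Set.indicator_of_notMem (by simpa using hm)]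

theorem geo4 (a : ℝ) (h0 : 0 ≤ a) (h1 : a < 1) (m : ℕ) :
    HasSum (fun i => a ^ (i + m + 1)) (a ^ (m + 1) / (1 - a)) := by
  have := (hasSum_geometric_of_lt_one h0 h1).mul_left (a ^ (m + 1))
  rw [div_eq_mul_inv]
  refine this.congr_fun (fun i => ?_)
  ring

theorem h_sum (m : ℕ) : HasSum (fun i => h (i + m + 1)) (h m) := by
  have := geo4 (1 / 2) (by norm_num) (by norm_num) m
  rwa [show ((1 : ℝ) / 2) ^ (m + 1) / (1 - 1 / 2) = h m by unfold h; ring] at this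

theorem summ_c (hc : ∀ n, 0 ≤ c n) (hC : ∀ n, c n ≤ C) (k : ℕ) :
    Summable (fun j => c (k + 1 + j) / 4 ^ (j + 1)) := by
  refine Summable.of_nonneg_of_le (fun j => div_nonneg (hc _) (by positivity)) (fun j => ?_)
    ((geo4 (1 / 4) (by norm_num) (by norm_num) 0).summable.mul_left C)
  rw [div_eq_mul_one_div, add_zero, ← one_div_pow]
  exact mul_le_mul_of_nonneg_right (hC _) (by positivity)

/-- the tails -/
theorem tail_le (hc : ∀ n, 0 ≤ c n) (hC : ∀ n, c n ≤ C) (_hC0 : 0 ≤ C) (k : ℕ) :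
    ∑' j, seq c (k + 1 + j) ≤ 1 / 2 ^ k - (1 / 4) ^ k * (∑' j, c (k + 1 + j) / 4 ^ (j + 1)) +
      C ^ 2 * (1 / 8) ^ k := by
  have h1 := (summable_nat_add_iff (k + 1)).mpr (summable_seq hc)
  have h1' : Summable (fun j => seq c (k + 1 + j)) := h1.congr (fun j => by rw [add_comm])
  have h2 := h_sum k
  have h3 := (summ_c hc hC k).hasSum.mul_left ((1 / 4 : ℝ) ^ k)
  have h4 := (geo4 (1 / 8) (by norm_num) (by norm_num) k).mul_left (C ^ 2)
  have h5 := (h2.sub h3).add h4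
  have h6 := hasSum_le (fun j => ?_) h1'.hasSum h5
  · refine h6.trans ?_
    rw [half_pow]
    have : C ^ 2 * ((1 / 8) ^ (k + 1) / (1 - 1 / 8)) ≤ C ^ 2 * (1 / 8) ^ k := by
      refine mul_le_mul_of_nonneg_left ?_ (by positivity)
      have : (0 : ℝ) < (1 / 8) ^ k := by positivity
      rw [pow_succ, div_le_iff₀ (by norm_num)]
      linarith
    linarith
  · have h7 := seq_le2 hc (k + 1 + j)
    have h8 : (c (k + 1 + j)) ^ 2 * (1 / 8) ^ (k + 1 + j) ≤ C ^ 2 * (1 / 8) ^ (j + k + 1) := by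
      rw [show j + k + 1 = k + 1 + j by ring]
      exact mul_le_mul_of_nonneg_right (pow_le_pow_left₀ (hc _) (hC _) 2) (by positivity)
    have h9 : (1 / 4 : ℝ) ^ k * (c (k + 1 + j) / 4 ^ (j + 1)) =
        c (k + 1 + j) * (1 / 4) ^ (k + 1 + j) := by
      rw [show k + 1 + j = k + (j + 1) by ring, pow_add (1 / 4 : ℝ), one_div_pow, one_div_pow]
      ring
    rw [h9, half_pow, show j + k + 1 = k + 1 + j by ring]
    rw [show j + k + 1 = k + 1 + j by ring] at h8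
    linarith

theorem tail_ge (hc : ∀ n, 0 ≤ c n) (hC : ∀ n, c n ≤ C) (k : ℕ) :
    1 / 2 ^ k - (1 / 4) ^ k * (∑' j, c (k + 1 + j) / 4 ^ (j + 1)) ≤ ∑' j, seq c (k + 1 + j) := by
  have h1 := (summable_nat_add_iff (k + 1)).mpr (summable_seq hc)
  have h1' : Summable (fun j => seq c (k + 1 + j)) := h1.congr (fun j => by rw [add_comm])
  have h2 := h_sum k
  have h3 := (summ_c hc hC k).hasSum.mul_left ((1 / 4 : ℝ) ^ k)
  have h6 := hasSum_le (fun j => ?_) (h2.sub h3) h1'.hasSum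
  · rwa [half_pow] at h6
  · have h7 := seq_ge hc (k + 1 + j)
    have h9 : (1 / 4 : ℝ) ^ k * (c (k + 1 + j) / 4 ^ (j + 1)) =
        c (k + 1 + j) * (1 / 4) ^ (k + 1 + j) := by
      rw [show k + 1 + j = k + (j + 1) by ring, pow_add (1 / 4 : ℝ), one_div_pow, one_div_pow]
      ring
    rw [h9, half_pow, show j + k + 1 = k + 1 + j by ring]
    linarith

theorem cantorMain (hc : ∀ n, 0 ≤ c n) (hC : ∀ n, c n ≤ C) {ε : ℝ} (hε : 0 < ε)
    (hR : ∀ R : ℕ, ∃ᶠ n in atTop, ∃ F : Finset ℕ, R ≤ F.card ∧ ∀ k ∈ F,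
      n ≤ k ∧ k ≤ 3 * n / 2 ∧ c k + ε ≤ ∑' j, c (k + 1 + j) / 4 ^ (j + 1)) :
    Nonempty (achSet (seq c) ≃ₜ cantorSet) := by
  have hC0 : 0 ≤ C := (hc 0).trans (hC 0)
  rw [ach_eq hc]
  have hs' : Summable (fun m => seq c (m + 1)) := (summable_nat_add_iff 1).mpr (summable_seq hc)
  -- the level beyond which second order terms are negligible
  obtain ⟨N, hN⟩ : ∃ N : ℕ, ∀ k ≥ N, C ^ 2 * (1 / 8) ^ k ≤ ε / 2 * (1 / 4) ^ k := by
    obtain ⟨N, hN⟩ := exists_pow_lt_of_lt_one (x := ε / 2 / (C ^ 2 + 1)) (y := (1 / 2 : ℝ))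
      (by positivity) (by norm_num)
    refine ⟨N, fun k hk => ?_⟩
    rw [lt_div_iff₀ (by positivity)] at hN
    have h1 : (1 / 2 : ℝ) ^ k ≤ (1 / 2) ^ N := pow_le_pow_of_le_one (by norm_num) (by norm_num) hk
    have h2 : (1 / 8 : ℝ) ^ k = (1 / 2) ^ k * (1 / 4) ^ k := by rw [← mul_pow]; norm_num
    rw [h2, ← mul_assoc]
    refine mul_le_mul_of_nonneg_right ?_ (by positivity)
    have h3 : (0 : ℝ) < (1 / 2) ^ N := by positivity
    have h4 : C ^ 2 * (1 / 2) ^ k ≤ C ^ 2 * (1 / 2) ^ N := mul_le_mul_of_nonneg_left h1 (by positivity)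
    nlinarith
  have hr : ∀ m, ∑' i, seq c (i + m + 1) = ∑' j, seq c (m + 1 + j) := fun m =>
    tsum_congr (fun i => by rw [show i + m + 1 = m + 1 + i by ring])
  refine cantor (er := fun m => (C + 1) * (1 / 4) ^ m) (c := ε / (2 * (C + 1)))
    (S := {m | N ≤ m + 1 ∧ c (m + 1) + ε ≤ ∑' j, c (m + 1 + 1 + j) / 4 ^ (j + 1)})
    (fun n => seq_pos hc _) hs'
    ⟨fun m => by positivity, fun m => ?_, fun η hη => ?_, by positivity, fun m => (seq_pos hc _).le,
      fun m => tsum_nonneg (fun i => (seq_pos hc _).le), fun m => ?_, fun m => ?_, fun m => ?_,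
      ?_, fun R η hη => ?_⟩
  · show 2 * ((C + 1) * (1 / 4) ^ (m + 1)) ≤ (C + 1) * (1 / 4) ^ m
    rw [pow_succ]
    have : (0 : ℝ) < (C + 1) * (1 / 4) ^ m := by positivity
    linarith
  · have h1 : Tendsto (fun n : ℕ => (C + 1) * (1 / 2 : ℝ) ^ n) atTop (𝓝 ((C + 1) * 0)) :=
      (tendsto_pow_atTop_nhds_zero_of_lt_one (by norm_num) (by norm_num)).const_mul _
    rw [mul_zero] at h1
    filter_upwards [h1.eventually (gt_mem_nhds hη)] with n hn
    have h2 : (1 / 4 : ℝ) ^ n = (1 / 2) ^ n * h n := by unfold h; rw [← mul_pow]; norm_num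
    rw [h2, ← mul_assoc]
    exact mul_lt_mul_of_pos_right hn (h_pos n)
  · refine (((summable_nat_add_iff m).mpr hs').tsum_eq_zero_add).trans ?_
    refine congrArg₂ (· + ·) (by rw [zero_add]) (tsum_congr (fun i => ?_))
    rw [show i + 1 + m + 1 = i + (m + 1) + 1 by ring]
  · have h1 := seq_dist hc hC (m + 1)
    rw [half_pow]
    refine h1.trans ?_
    exact mul_le_mul_of_nonneg_right (by linarith) (by positivity)
  · rw [hr m, half_pow]
    have h1 := tail_ge hc hC m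
    have h2 : ∑' j, seq c (m + 1 + j) ≤ 1 / 2 ^ m := by
      have h1' : Summable (fun j => seq c (m + 1 + j)) :=
        ((summable_nat_add_iff (m + 1)).mpr (summable_seq hc)).congr (fun j => by rw [add_comm])
      have := hasSum_le (fun j => ?_) h1'.hasSum (h_sum m)
      · rwa [half_pow] at this
      · rw [half_pow, show j + m + 1 = m + 1 + j by ring]; exact seq_le hc _
    have h3 : ∑' j, c (m + 1 + j) / 4 ^ (j + 1) ≤ C + 1 := by
      have h4 := hasSum_le (fun j => ?_) (summ_c hc hC m).hasSum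
        ((geo4 (1 / 4) (by norm_num) (by norm_num) 0).mul_left C)
      · refine h4.trans ?_
        norm_num
        linarith
      · rw [div_eq_mul_one_div, add_zero, ← one_div_pow]
        exact mul_le_mul_of_nonneg_right (hC _) (by positivity)
    have h5 : (1 / 4 : ℝ) ^ m * ∑' j, c (m + 1 + j) / 4 ^ (j + 1) ≤ (1 / 4) ^ m * (C + 1) :=
      mul_le_mul_of_nonneg_left h3 (by positivity)
    have h6 : (0 : ℝ) < (C + 1) * (1 / 4) ^ m := by positivity
    rw [abs_le]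
    constructor <;> linarith
  · rintro m ⟨hm1, hm2⟩
    show ε / (2 * (C + 1)) * ((C + 1) * (1 / 4) ^ (m + 1)) ≤
      seq c (m + 1) - ∑' i, seq c (i + (m + 1) + 1)
    have hrr := hr (m + 1)
    rw [hrr]
    have h1 := tail_le hc hC hC0 (m + 1)
    have h2 := seq_ge hc (m + 1)
    have h3 := hN (m + 1) hm1
    have h4 : (0 : ℝ) < (1 / 4) ^ (m + 1) := by positivity
    have h5 := mul_le_mul_of_nonneg_left hm2 h4.le
    have h6 : ε / (2 * (C + 1)) * ((C + 1) * (1 / 4) ^ (m + 1)) = ε / 2 * (1 / 4) ^ (m + 1) := by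
      field_simp
    rw [h6]
    linarith
  · have ev : ∀ᶠ n' in atTop, N + 1 ≤ n' ∧ (4 * (C + 1)) * (1 / 2 : ℝ) ^ (n' / 2) < η := by
      have h1 : Tendsto (fun n : ℕ => (4 * (C + 1)) * (1 / 2 : ℝ) ^ (n / 2)) atTop
          (𝓝 ((4 * (C + 1)) * 0)) :=
        ((tendsto_pow_atTop_nhds_zero_of_lt_one (by norm_num) (by norm_num)).comp
          (Nat.tendsto_div_const_atTop (by norm_num : (2 : ℕ) ≠ 0))).const_mul _
      rw [mul_zero] at h1
      exact (eventually_ge_atTop (N + 1)).and (h1.eventually (gt_mem_nhds hη))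
    refine (tendsto_sub_atTop_nat 1).frequently (((hR (R + 1)).and_eventually ev).mono ?_)
    rintro n' ⟨⟨F, hF1, hF2⟩, hn1, hn2⟩
    set p : ℕ → Prop := fun m => (N ≤ m + 1 ∧ c (m + 1) + ε ≤ ∑' j, c (m + 1 + 1 + j) / 4 ^ (j + 1)) ∧
      n' - 1 ≤ m with hp
    have hinf : {m | p m}.Infinite := by
      refine Set.infinite_of_forall_exists_gt (fun a => ?_)
      obtain ⟨b, ⟨G, hG1, hG2⟩, hb⟩ :=
        ((hR 1).and_eventually (eventually_ge_atTop (a + N + n' + 3))).exists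
      obtain ⟨k, hk⟩ := card_pos.mp (lt_of_lt_of_le one_pos hG1)
      obtain ⟨k1, k2, k3⟩ := hG2 k hk
      obtain ⟨m, rfl⟩ : ∃ m, k = m + 1 := ⟨k - 1, by omega⟩
      exact ⟨m, ⟨⟨by omega, k3⟩, by omega⟩, by omega⟩
    classical
    have hcount : R < Nat.count p (3 * n' / 2) := by
      rw [Nat.count_eq_card_filter_range]
      refine lt_of_lt_of_le (Nat.lt_of_succ_le hF1) ?_
      refine card_le_card_of_injOn (fun k => k - 1) (fun k hk => ?_) (fun a ha b hb hab => ?_)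
      · obtain ⟨k1, k2, k3⟩ := hF2 k hk
        obtain ⟨m, rfl⟩ : ∃ m, k = m + 1 := ⟨k - 1, by omega⟩
        rw [mem_coe, mem_filter, mem_range]
        exact ⟨by simp only [Nat.add_sub_cancel]; omega, ⟨⟨by simp only [Nat.add_sub_cancel]; omega,
          by simpa using k3⟩, by simp only [Nat.add_sub_cancel]; omega⟩⟩
      · have h1 := (hF2 a ha).1
        have h2 := (hF2 b hb).1
        simp only at hab
        omega
    refine ⟨Nat.nth p, Nat.nth_strictMono hinf, (Nat.nth_mem_of_infinite hinf 0).2,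
      fun i _ => (Nat.nth_mem_of_infinite hinf i).1, ?_⟩
    have hlt := Nat.nth_lt_of_lt_count hcount
    have h1 : h (3 * n' / 2) ≤ h (Nat.nth p R) := h_anti hlt.le
    have h2 : (C + 1) * (1 / 4 : ℝ) ^ (n' - 1) ≤ (4 * (C + 1) * (1 / 2) ^ (n' / 2)) * h (3 * n' / 2) := by
      obtain ⟨a, rfl⟩ : ∃ a, n' = a + 1 := ⟨n' - 1, by omega⟩
      unfold h
      rw [mul_assoc _ ((1 / 2 : ℝ) ^ ((a + 1) / 2)), ← pow_add, Nat.add_sub_cancel]
      have h3 : (1 / 4 : ℝ) ^ a = (1 / 2) ^ (2 * a) := by rw [pow_mul]; norm_num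
      have h4 : (1 / 2 : ℝ) ^ (2 * a + 2) ≤ (1 / 2) ^ ((a + 1) / 2 + 3 * (a + 1) / 2) :=
        pow_le_pow_of_le_one (by norm_num) (by norm_num) (by omega)
      rw [pow_add] at h4
      rw [h3]
      have h5 : 0 ≤ 4 * (C + 1) := by positivity
      have h6 := mul_le_mul_of_nonneg_left h4 h5
      norm_num at h6 ⊢
      linarith
    have h3 : (4 * (C + 1) * (1 / 2) ^ (n' / 2)) * h (3 * n' / 2) ≤ η * h (3 * n' / 2) :=
      mul_le_mul_of_nonneg_right hn2.le (h_pos _).le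
    have h4 : (4 * (C + 1) * (1 / 2) ^ (n' / 2)) * h (3 * n' / 2) < η * h (3 * n' / 2) :=
      mul_lt_mul_of_pos_right hn2 (h_pos _)
    have h5 : η * h (3 * n' / 2) ≤ η * h (Nat.nth p R) := mul_le_mul_of_nonneg_left h1 hη.le
    show (C + 1) * (1 / 4 : ℝ) ^ (n' - 1) < η * h (Nat.nth p R)
    linarith

end Pool.Agent.H53Ach.Seq
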